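import Pool.Agent.helper96.S5.SpecR

/-!
Row MXA of project s5 (MP_0b485e_lc): basic facts on the construction of the maximal set.
-/

set_option autoImplicit false

namespace S5

open PF

noncomputable section

theorem MXA_mono (H : List (ℕ × ℕ)) : StrictMono (mv H) := by
  induction H with
  | nil => intro x y h; exact h
  | cons p H ih =>
    intro x y h
    have e : ∀ z, mv (p :: H) z = mv H (if z < p.1 then z else z + p.2) := fun _ => rfl
    rw [e, e]
    refine ih ?_
    split_ifs <;> omega

theorem MXA_step (s x : ℕ) : mm (s + 1) x =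
    mm s (if x < (mact s (mH s)).1 then x else x + (mact s (mH s)).2) := rfl

theorem MXA_row : MXA_stmt := by
  refine ⟨fun s => MXA_mono (mH s), fun s x => ?_, fun s => ?_, fun s => ?_⟩
  · rw [MXA_step]
    refine (MXA_mono (mH s)).monotone ?_
    split_ifs <;> omega
  · rintro _ ⟨x, rfl⟩
    exact ⟨_, (MXA_step s x).symm⟩
  · by_cases h : ∃ e d, mq s (mH s) e d
    · right
      set e := lst fun e => ∃ d, mq s (mH s) e d with he
      have h1 : ∃ d, mq s (mH s) e d := lst_spec (Q := fun e => ∃ d, mq s (mH s) e d) h
      set d := lst fun d => mq s (mH s) e d with hd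
      have h2 : mq s (mH s) e d := lst_spec (Q := fun d => mq s (mH s) e d) h1
      have ha : mact s (mH s) = (e, d + 1) := by
        unfold mact
        rw [if_pos h]
      have hm : mm (s + 1) e = mv (mH s) (e + d + 1) := by
        rw [MXA_step, ha, if_neg (lt_irrefl _)]
        rfl
      refine ⟨e, fun x hx => ?_, ?_, fun e' i h3 h4 h5 => ?_, ?_⟩
      · rw [MXA_step, ha, if_pos hx]
      · rw [hm]
        exact h2.2
      · have h6 : ¬ ∃ d, mq s (mH s) e' d :=
          lst_not (Q := fun e => ∃ d, mq s (mH s) e d) h3
        by_contra h7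
        refine h6 ⟨i - e' - 1, ?_, ?_⟩
        · omega
        · have h8 : e' + (i - e' - 1) + 1 = i := by omega
          rw [h8]
          exact not_le.1 h7
      · rw [hm]
        exact MXA_mono (mH s) (by omega)
    · left
      have ha : mact s (mH s) = (0, 0) := by
        unfold mact
        rw [if_neg h]
      refine ⟨fun x => ?_, fun e i h4 h5 => ?_⟩
      · rw [MXA_step, ha, if_neg (Nat.not_lt_zero x)]
        rfl
      · by_contra h7
        refine h ⟨e, i - e - 1, ?_, ?_⟩
        · omega
        · have h8 : e + (i - e - 1) + 1 = i := by omega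
          rw [h8]
          exact not_le.1 h7

end

end S5
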